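import Pool.Agent.W707.TV.Path
import Pool.Agent.W305.VC.Pot

/-!
# Quantum factorials at `e^{π i/(M+1/2)}` and the vertical sides (subtask TVC-BRF)
-/

set_option autoImplicit false

namespace Pool.Agent.W125.TV

open Filter Finset EvenVol Pool.Agent.H112R4.VL Pool.Agent.W709.VC Pool.Agent.W707.TV
open scoped Real Topology

/-- `∑_{j=1}^k log |2 sin(2 π j / r)|`, `r = 2 M + 1` -/
noncomputable def EE' (M k : ℕ) : ℝ := ∑ j ∈ range k, Real.log (sg (2 * M + 1) (2 * (j + 1)))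

lemma norm_br_vh (M : ℕ) (k : ℕ) : ‖br (vh M) (k : ℤ)‖ = |2 * Real.sin (π * k / Rh M)| := by
  rw [br_vh, norm_mul, norm_mul, Complex.norm_I, Complex.norm_real, abs_mul]
  simp

lemma sg_two (M j : ℕ) (h0 : 0 < j) (h1 : j < 2 * M + 1) :
    sg (2 * M + 1) (2 * j) = |2 * Real.sin (π * j / Rh M)| := by
  unfold sg
  have h2 : ¬ (2 * M + 1) ∣ 2 * j := by
    intro h
    have hc : Nat.Coprime (2 * M + 1) 2 := by
      rw [Nat.coprime_comm]
      simp [Nat.coprime_mul_left_add_right]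
    have := Nat.le_of_dvd h0 (hc.dvd_of_dvd_mul_left h)
    omega
  rw [if_neg h2]
  congr 3
  have : ((2 * M + 1 : ℕ) : ℝ) = 2 * Rh M := (Rh_two M).symm
  rw [this]
  have hR := Rh_pos M
  push_cast
  field_simp

lemma log_brf_vh {M k : ℕ} (hk : k < 2 * M + 1) : Real.log ‖brf (vh M) k‖ = EE' M k := by
  unfold brf EE'
  rw [norm_prod, Real.log_prod]
  · apply Finset.sum_congr rfl
    intro j hj
    rw [Finset.mem_range] at hj
    rw [sg_two M (j + 1) (by omega) (by omega), ← norm_br_vh]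
    norm_num
  · intro j hj
    rw [Finset.mem_range] at hj
    rw [norm_ne_zero_iff]
    exact br_vh_ne (by omega) (by omega)

lemma sg_dbl {N : ℕ} (hN : 0 < N) (j : ℕ) : sg (2 * N) (2 * j) = sg N j := by
  unfold sg
  have h1 : 2 * N ∣ 2 * j ↔ N ∣ j := Nat.mul_dvd_mul_iff_left (by norm_num)
  by_cases h : N ∣ j
  · rw [if_pos (h1.2 h), if_pos h]
  · rw [if_neg (fun h' => h (h1.1 h')), if_neg h]
    have hN' : (N : ℝ) ≠ 0 := by positivity
    congr 3
    push_cast
    field_simp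

lemma sg_cos (M j : ℕ) : sg (2 * (2 * M + 1)) (2 * M + 1 + 2 * j) =
    |2 * Real.cos (π * j / (2 * M + 1 : ℕ))| := by
  unfold sg
  have h1 : ¬ 2 * (2 * M + 1) ∣ 2 * M + 1 + 2 * j := by
    intro h
    have : 2 ∣ 2 * M + 1 + 2 * j := dvd_trans ⟨2 * M + 1, rfl⟩ h
    omega
  rw [if_neg h1]
  have hN' : ((2 * M + 1 : ℕ) : ℝ) ≠ 0 := by positivity
  have h2 : π * ((2 * M + 1 + 2 * j : ℕ) : ℝ) / ((2 * (2 * M + 1) : ℕ) : ℝ) =
      π * j / (2 * M + 1 : ℕ) + π / 2 := by
    push_cast at hN' ⊢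
    field_simp
    ring
  rw [h2, Real.sin_add_pi_div_two]

lemma sg_step {M j : ℕ} (h0 : 0 < j) (h1 : j < 2 * M + 1) :
    Real.log (sg (2 * M + 1) (2 * j)) = Real.log (sg (2 * M + 1) j) +
      Real.log (sg (2 * (2 * M + 1)) (2 * M + 1 + 2 * j)) := by
  have hR := Rh_pos M
  have hr : ((2 * M + 1 : ℕ) : ℝ) = 2 * Rh M := (Rh_two M).symm
  have h2 : ¬ (2 * M + 1) ∣ j := fun h => by
    have := Nat.le_of_dvd h0 h
    omega
  have e1 : sg (2 * M + 1) j = |2 * Real.sin (π * j / (2 * M + 1 : ℕ))| := by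
    unfold sg
    rw [if_neg h2]
  have h3 : Real.sin (π * j / Rh M) ≠ 0 := by
    have := sin_vh_ne (M := M) (k := (j : ℤ)) (by omega) (by omega)
    simpa using this
  have h4 : Real.sin (π * j / Rh M) = 2 * Real.sin (π * j / (2 * M + 1 : ℕ)) *
      Real.cos (π * j / (2 * M + 1 : ℕ)) := by
    rw [← Real.sin_two_mul]
    congr 1
    rw [hr]
    field_simp
  have h5 : Real.sin (π * j / (2 * M + 1 : ℕ)) ≠ 0 := by
    intro h
    apply h3
    rw [h4, h]
    ring
  have h6 : Real.cos (π * j / (2 * M + 1 : ℕ)) ≠ 0 := by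
    intro h
    apply h3
    rw [h4, h]
    ring
  rw [sg_two M j h0 h1, e1, sg_cos, ← Real.log_mul, ← abs_mul, h4]
  · congr 2
    ring
  · simpa using h5
  · simpa using h6

lemma EE_eq {M k : ℕ} (hk : k < 2 * M + 1) : EE' M k = S (2 * M + 1) k +
    S (2 * (2 * M + 1)) (2 * M + 1 + 2 * k) - S (2 * M + 1) (M + k) -
    S (2 * (2 * M + 1)) (2 * M + 1) + S (2 * M + 1) M := by
  induction k with
  | zero => simp [EE', EvenVol.S]
  | succ k ih =>
    have h1 := ih (by omega)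
    have h2 := sg_step (M := M) (j := k + 1) (by omega) hk
    have e1 : EE' M (k + 1) = EE' M k + Real.log (sg (2 * M + 1) (2 * (k + 1))) := by
      unfold EE'
      rw [Finset.sum_range_succ]
    have e2 : S (2 * M + 1) (k + 1) = S (2 * M + 1) k + Real.log (sg (2 * M + 1) (k + 1)) := by
      unfold EvenVol.S
      rw [Finset.sum_range_succ]
    have e3 : S (2 * M + 1) (M + (k + 1)) = S (2 * M + 1) (M + k) +
        Real.log (sg (2 * M + 1) (M + k + 1)) := by
      unfold EvenVol.S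
      rw [← add_assoc, Finset.sum_range_succ]
    have e4 : S (2 * (2 * M + 1)) (2 * M + 1 + 2 * (k + 1)) =
        S (2 * (2 * M + 1)) (2 * M + 1 + 2 * k) +
        Real.log (sg (2 * (2 * M + 1)) (2 * M + 1 + 2 * k + 1)) +
        Real.log (sg (2 * (2 * M + 1)) (2 * M + 1 + 2 * (k + 1))) := by
      unfold EvenVol.S
      rw [show 2 * M + 1 + 2 * (k + 1) = 2 * M + 1 + 2 * k + 1 + 1 by ring, Finset.sum_range_succ,
        Finset.sum_range_succ]
    have e5 : sg (2 * (2 * M + 1)) (2 * M + 1 + 2 * k + 1) = sg (2 * M + 1) (M + k + 1) := by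
      rw [show 2 * M + 1 + 2 * k + 1 = 2 * (M + k + 1) by ring]
      exact sg_dbl (by omega) _
    rw [e1, e2, e3, e4, e5, h1, h2]
    ring

lemma lob_uc {ε : ℝ} (hε : 0 < ε) : ∃ δ : ℝ, 0 < δ ∧ ∀ x ∈ Set.Icc (0 : ℝ) (2 * π),
    ∀ y ∈ Set.Icc (0 : ℝ) (2 * π), |x - y| < δ → |GapVol.lob x - GapVol.lob y| ≤ ε := by
  have huc := isCompact_Icc.uniformContinuousOn_of_continuous
    (GapVol.lob_cont.continuousOn (s := Set.Icc (0 : ℝ) (2 * π)))
  rw [Metric.uniformContinuousOn_iff] at huc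
  obtain ⟨δ, hδ, hu⟩ := huc ε hε
  refine ⟨δ, hδ, fun x hx y hy h => ?_⟩
  have := (hu x hx y hy (by rw [Real.dist_eq]; exact h)).le
  rwa [Real.dist_eq] at this

lemma tend_r : Tendsto (fun M : ℕ => 2 * M + 1) atTop atTop :=
  tendsto_atTop_mono (fun M => by simp only [id]; omega) tendsto_id

/-- all factorials at the root of unity -/
theorem brf_asymp : ∀ ε : ℝ, 0 < ε → ∀ᶠ M : ℕ in atTop, ∀ k : ℕ, k < 2 * M + 1 →
    |Real.log ‖brf (vh M) k‖ + Rh M / π * GapVol.lob (π * k / Rh M)| ≤ ε * M := by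
  intro ε hε
  obtain ⟨δ, hδ, hu⟩ := lob_uc (show 0 < ε * π / 12 by positivity)
  have t1 := tend_r.eventually (Pool.Agent.H811R3.EvenVolR.taskR (ε / 42) (by positivity))
  have t2 := (tend_r.const_mul_atTop' (show 0 < 2 by norm_num)).eventually
    (Pool.Agent.H811R3.EvenVolR.taskR (ε / 42) (by positivity))
  have t3 : ∀ᶠ M : ℕ in atTop, π / (M : ℝ) < δ :=
    (tendsto_const_div_atTop_nhds_zero_nat π).eventually (gt_mem_nhds hδ)
  filter_upwards [t1, t2, t3, eventually_ge_atTop 1] with M a1 a2 a3 hM k hk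
  rw [log_brf_vh hk, EE_eq hk]
  have hp := Real.pi_pos
  have hMR : (1 : ℝ) ≤ M := by exact_mod_cast hM
  have hR := Rh_pos M
  set r : ℝ := ((2 * M + 1 : ℕ) : ℝ) with hr
  have hr2 : r = 2 * Rh M := (Rh_two M).symm
  have hrM : r = 2 * M + 1 := by rw [hr]; push_cast; ring
  have hr0 : 0 < r := by rw [hr2]; positivity
  have hr3 : r ≤ 3 * M := by rw [hrM]; linarith
  have hc2 : ((2 * (2 * M + 1) : ℕ) : ℝ) = 2 * r := by rw [hr]; push_cast; ring
  have hkr : (k : ℝ) ≤ r := by rw [hr]; exact_mod_cast hk.le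
  have b1 := a1 k (by omega)
  have b2 := a2 (2 * M + 1 + 2 * k) (by omega)
  have b3 := a1 (M + k) (by omega)
  have b4 := a2 (2 * M + 1) (by omega)
  have b5 := a1 M (by omega)
  rw [hc2] at b2 b4
  set x : ℝ := π * k / r with hx
  have hx0 : 0 ≤ x := by rw [hx]; positivity
  have hx1 : x ≤ π := by
    rw [hx, div_le_iff₀ hr0]
    exact mul_le_mul_of_nonneg_left hkr hp.le
  set h : ℝ := π / (2 * r) with hh
  have hh0 : 0 < h := by positivity
  have hh1 : h < δ := by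
    refine lt_of_le_of_lt ?_ a3
    rw [hh]
    apply div_le_div_of_nonneg_left hp.le (by linarith)
    rw [hrM]
    linarith
  have hh2 : h ≤ π / 2 := by
    rw [hh]
    apply div_le_div_of_nonneg_left hp.le (by norm_num)
    rw [hrM]
    linarith
  have c2 : π * ((2 * M + 1 + 2 * k : ℕ) : ℝ) / (2 * r) = x + π / 2 := by
    rw [hx, hrM]
    push_cast
    field_simp
    ring
  have c3 : π * ((M + k : ℕ) : ℝ) / r = x + π / 2 - h := by
    rw [hx, hh, hrM]
    push_cast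
    field_simp
    ring
  have c4 : π * ((2 * M + 1 : ℕ) : ℝ) / (2 * r) = π / 2 := by
    rw [← hr]
    field_simp
  have c5 : π * (M : ℝ) / r = π / 2 - h := by
    rw [hh, hrM]
    field_simp
    ring
  rw [c2] at b2
  rw [c3] at b3
  rw [c4, GapVol.lob_half] at b4
  rw [c5] at b5
  have d1 := hu (x + π / 2 - h) ⟨by linarith, by linarith⟩ (x + π / 2) ⟨by linarith, by linarith⟩
    (by rw [show x + π / 2 - h - (x + π / 2) = -h by ring, abs_neg, abs_of_pos hh0]; exact hh1)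
  have d2 := hu (π / 2 - h) ⟨by linarith, by linarith⟩ (π / 2) ⟨by linarith, by linarith⟩
    (by rw [show π / 2 - h - π / 2 = -h by ring, abs_neg, abs_of_pos hh0]; exact hh1)
  rw [GapVol.lob_half] at d2
  have e0 : Rh M / π * GapVol.lob (π * k / Rh M) = r / π * GapVol.lob x +
      r / π * GapVol.lob (x + π / 2) := by
    have : π * k / Rh M = 2 * x := by
      rw [hx, hr2]
      field_simp
    rw [this, Pool.Agent.W305.VC.lob_two_mul, hr2]
    ring
  rw [e0]
  have hrp : 0 < r / π := by positivity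
  set A1 := GapVol.lob x
  set A2 := GapVol.lob (x + π / 2)
  set A3 := GapVol.lob (x + π / 2 - h)
  set A5 := GapVol.lob (π / 2 - h)
  have f1 : |r / π * (A3 - A2)| ≤ ε / 4 * M := by
    rw [abs_mul, abs_of_pos hrp]
    calc r / π * |A3 - A2| ≤ r / π * (ε * π / 12) := mul_le_mul_of_nonneg_left d1 hrp.le
      _ = ε / 12 * r := by field_simp
      _ ≤ ε / 12 * (3 * M) := mul_le_mul_of_nonneg_left hr3 (by positivity)
      _ = ε / 4 * M := by ring
  have f2 : |r / π * A5| ≤ ε / 4 * M := by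
    rw [sub_zero] at d2
    rw [abs_mul, abs_of_pos hrp]
    calc r / π * |A5| ≤ r / π * (ε * π / 12) := mul_le_mul_of_nonneg_left d2 hrp.le
      _ = ε / 12 * r := by field_simp
      _ ≤ ε / 12 * (3 * M) := mul_le_mul_of_nonneg_left hr3 (by positivity)
      _ = ε / 4 * M := by ring
  have g0 : ε / 42 * r ≤ ε / 14 * M := by
    calc ε / 42 * r ≤ ε / 42 * (3 * M) := mul_le_mul_of_nonneg_left hr3 (by positivity)
      _ = ε / 14 * M := by ring
  rw [abs_le] at b1 b2 b3 b4 b5 f1 f2 ⊢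
  have m2 : 2 * r / π * A2 = 2 * (r / π * A2) := by ring
  have m1 : r / π * (A3 - A2) = r / π * A3 - r / π * A2 := by ring
  rw [m2] at b2
  rw [m1] at f1
  obtain ⟨b1l, b1u⟩ := b1
  obtain ⟨b2l, b2u⟩ := b2
  obtain ⟨b3l, b3u⟩ := b3
  obtain ⟨b4l, b4u⟩ := b4
  obtain ⟨b5l, b5u⟩ := b5
  obtain ⟨f1l, f1u⟩ := f1
  obtain ⟨f2l, f2u⟩ := f2
  rw [mul_zero, add_zero] at b4l b4u
  constructor
  · linarith
  · linarith

end Pool.Agent.W125.TV
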