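import Pool.Agent.W125.TV.Brf

/-!
# Quantum factorials at `e^{π i/(M+1/2)}` and the vertical sides (subtask TVC-BRF), second part
-/

set_option autoImplicit false

namespace Pool.Agent.W125.TV

open Filter Finset EvenVol Pool.Agent.H112R4.VL Pool.Agent.W709.VC Pool.Agent.W707.TV
open scoped Real Topology

lemma tend_Rh : Tendsto Rh atTop atTop :=
  tendsto_atTop_mono (fun M => by unfold Rh; linarith) tendsto_natCast_atTop_atTop

theorem hbrf : S_HBRF := by
  intro ε hε
  obtain ⟨δ, hδ, hu⟩ := lob_uc (show 0 < ε * π / 3 by positivity)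
  have t1 := brf_asymp (ε / 2) (by positivity)
  have t3 : ∀ᶠ M : ℕ in atTop, 3 * π / 2 / Rh M < δ :=
    (tendsto_const_nhds.div_atTop tend_Rh).eventually (gt_mem_nhds hδ)
  filter_upwards [t1, t3, eventually_ge_atTop 1] with M a1 a3 hM n d hnd
  have hp := Real.pi_pos
  have hMR : (1 : ℝ) ≤ M := by exact_mod_cast hM
  have hR := Rh_pos M
  have hR2 : Rh M = M + 1 / 2 := rfl
  have b1 := a1 n (by omega)
  have hn : (n : ℝ) + d + 1 = M := by exact_mod_cast hnd
  have hd0 : (0 : ℝ) ≤ d := by positivity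
  have hn0 : (0 : ℝ) ≤ n := by positivity
  have e1 : GapVol.lob (π * n / Rh M) = -GapVol.lob (π * (d + 3 / 2) / Rh M) := by
    rw [← Pool.Agent.H811R3.EvenVolR.lob_refl]
    congr 1
    have : (n : ℝ) = Rh M - (d + 3 / 2) := by rw [hR2]; linarith
    rw [this]
    field_simp
  have d1 := hu (π * (d + 3 / 2) / Rh M) ⟨by positivity, by
      rw [div_le_iff₀ hR]
      nlinarith⟩ (π * d / Rh M) ⟨by positivity, by
      rw [div_le_iff₀ hR]
      nlinarith⟩ (by
      rw [show π * (d + 3 / 2) / Rh M - π * d / Rh M = 3 * π / 2 / Rh M by ring,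
        abs_of_pos (by positivity)]
      exact a3)
  rw [e1] at b1
  set L1 := GapVol.lob (π * (d + 3 / 2) / Rh M)
  set L0 := GapVol.lob (π * d / Rh M)
  have hRp : 0 < Rh M / π := by positivity
  have f1 : |Rh M / π * (L1 - L0)| ≤ ε / 2 * M := by
    rw [abs_mul, abs_of_pos hRp]
    calc Rh M / π * |L1 - L0| ≤ Rh M / π * (ε * π / 3) := mul_le_mul_of_nonneg_left d1 hRp.le
      _ = ε / 3 * Rh M := by field_simp
      _ ≤ ε / 3 * (3 / 2 * M) := mul_le_mul_of_nonneg_left (by rw [hR2]; linarith) (by positivity)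
      _ = ε / 2 * M := by ring
  have m1 : Rh M / π * (L1 - L0) = Rh M / π * L1 - Rh M / π * L0 := by ring
  rw [m1] at f1
  rw [abs_le] at b1 f1 ⊢
  obtain ⟨b1l, b1u⟩ := b1
  obtain ⟨f1l, f1u⟩ := f1
  constructor
  · linarith
  · linarith

/-! ## The vertical sides -/

lemma S_even_odd (M k : ℕ) : EvenVol.S (2 * M + 1) (2 * k) = EE' M k +
    ∑ j ∈ range k, Real.log (sg (2 * M + 1) (2 * j + 1)) := by
  induction k with
  | zero => simp [EE', EvenVol.S]
  | succ k ih =>
    have e1 : EvenVol.S (2 * M + 1) (2 * (k + 1)) = EvenVol.S (2 * M + 1) (2 * k) +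
        Real.log (sg (2 * M + 1) (2 * k + 1)) + Real.log (sg (2 * M + 1) (2 * (k + 1))) := by
      unfold EvenVol.S
      rw [show 2 * (k + 1) = 2 * k + 1 + 1 by ring, Finset.sum_range_succ, Finset.sum_range_succ]
    have e2 : EE' M (k + 1) = EE' M k + Real.log (sg (2 * M + 1) (2 * (k + 1))) := by
      unfold EE'
      rw [Finset.sum_range_succ]
    rw [e1, e2, ih, Finset.sum_range_succ]
    ring

/-- the factors -/
noncomputable def aa (M j : ℕ) (y : ℝ) : ℝ := 2 * Real.cosh y - 2 * Real.cos (π * (2 * j + 1) / Rh M)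

lemma aa_zero (M j : ℕ) (hj : j < M) : aa M j 0 = sg (2 * M + 1) (2 * j + 1) ^ 2 := by
  have h1 : ¬ (2 * M + 1) ∣ 2 * j + 1 := fun h => by
    have := Nat.le_of_dvd (by omega) h
    omega
  unfold sg aa
  rw [if_neg h1, sq_abs, mul_pow, Real.sin_sq_eq_half_sub, Real.cosh_zero]
  have hR := Rh_pos M
  have : 2 * (π * ((2 * j + 1 : ℕ) : ℝ) / ((2 * M + 1 : ℕ) : ℝ)) = π * (2 * j + 1) / Rh M := by
    rw [← Rh_two M]
    push_cast
    field_simp
  rw [this]
  ring

lemma aa_pos {M j : ℕ} (hj : j < M) (y : ℝ) : 0 < aa M j y := by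
  unfold aa
  have := cos_lt_one hj
  have := Real.one_le_cosh y
  linarith

lemma aa_mono {M j : ℕ} (y : ℝ) : aa M j 0 ≤ aa M j y := by
  unfold aa
  rw [Real.cosh_zero]
  have := Real.one_le_cosh y
  linarith

lemma log_prod_aa (M k : ℕ) (hk : k ≤ M) : Real.log (∏ j ∈ range k, aa M j 0) =
    2 * (EvenVol.S (2 * M + 1) (2 * k) - EE' M k) := by
  rw [S_even_odd, Real.log_prod, add_sub_cancel_left, Finset.mul_sum]
  · apply Finset.sum_congr rfl
    intro j hj
    rw [Finset.mem_range] at hj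
    rw [aa_zero M j (by omega), Real.log_pow]
    norm_num
  · intro j hj
    rw [Finset.mem_range] at hj
    exact (aa_pos (by omega) 0).ne'

lemma FP_real (M : ℕ) (y : ℝ) (ψ : ℂ) (h : Complex.cos (ψ + π) = Real.cosh y) :
    FP M ψ = ((∏ j ∈ range M, aa M j y : ℝ) : ℂ) := by
  unfold FP aa
  rw [h, Complex.ofReal_prod]
  apply Finset.prod_congr rfl
  intro j _
  rw [zz_real, ← Complex.ofReal_cos]
  push_cast
  ring

lemma RH_real (M n d : ℕ) (hnd : n + d + 1 = M) (y : ℝ) (ψ : ℂ)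
    (h : Complex.cos (ψ + π) = Real.cosh y) :
    RH M d ψ = ((∏ j ∈ range d, aa M (n + 1 + j) y : ℝ) : ℂ) := by
  unfold RH
  rw [← Finset.prod_range_reflect (fun j => aa M (n + 1 + j) y), Complex.ofReal_prod]
  apply Finset.prod_congr rfl
  intro j hj
  rw [Finset.mem_range] at hj
  have hc : Complex.cos ψ = -(Real.cosh y : ℂ) := by
    rw [Complex.cos_add_pi] at h
    rw [← h]
    ring
  rw [hc]
  unfold aa
  have hR := Rh_pos M
  have h2 : Real.cos (2 * π * (j + 1) / Rh M) =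
      Real.cos (π * (2 * ((n + 1 + (d - 1 - j) : ℕ) : ℝ) + 1) / Rh M) := by
    have h4 : ((n + 1 + (d - 1 - j) : ℕ) : ℝ) = M - 1 - j := by
      have : n + 1 + (d - 1 - j) = M - 1 - j := by omega
      rw [this, Nat.cast_sub (by omega), Nat.cast_sub (by omega)]
      simp
    have h5 : π * (2 * ((n + 1 + (d - 1 - j) : ℕ) : ℝ) + 1) / Rh M =
        2 * π - 2 * π * (j + 1) / Rh M := by
      rw [h4]
      have hR2 : Rh M = M + 1 / 2 := rfl
      have : (M : ℝ) = Rh M - 1 / 2 := by rw [hR2]; ring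
      rw [this]
      field_simp
      ring
    rw [h5, Real.cos_two_pi_sub]
  rw [h2]
  push_cast
  ring

lemma Hint_vert (A M n d : ℕ) (hnd : n + d + 1 = M) (y : ℝ) (hy : 0 ≤ y) (ψ : ℂ) (s : ℝ)
    (hcos : Complex.cos (ψ + π) = Real.cosh y) (hsin : ‖Complex.sin ψ‖ = Real.sinh y)
    (hexp : (Complex.I * A * Rh M * ψ ^ 2 / (4 * π)).re = s) :
    ‖Hint A M d ψ‖ ≤ Real.exp s * (2 * Real.sinh y) / ∏ j ∈ range (n + 1), aa M j 0 := by
  have hsplit : ∏ j ∈ range M, aa M j y =
      (∏ j ∈ range (n + 1), aa M j y) * ∏ j ∈ range d, aa M (n + 1 + j) y := by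
    rw [← Finset.prod_range_add]
    congr 2
    omega
  have hs : 0 ≤ Real.sinh y := Real.sinh_nonneg_iff.mpr hy
  rw [Hint_eq, RH_real M n d hnd y ψ hcos, FP_real M y ψ hcos, hsplit]
  have hA : 0 < ∏ j ∈ range (n + 1), aa M j y := Finset.prod_pos fun j hj => by
    rw [Finset.mem_range] at hj
    exact aa_pos (by omega) y
  have hB : 0 < ∏ j ∈ range d, aa M (n + 1 + j) y := Finset.prod_pos fun j hj => by
    rw [Finset.mem_range] at hj
    exact aa_pos (by omega) y
  have hA0 : 0 < ∏ j ∈ range (n + 1), aa M j 0 := Finset.prod_pos fun j hj => by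
    rw [Finset.mem_range] at hj
    exact aa_pos (by omega) 0
  have hAm : ∏ j ∈ range (n + 1), aa M j 0 ≤ ∏ j ∈ range (n + 1), aa M j y :=
    Finset.prod_le_prod (fun j hj => by
      rw [Finset.mem_range] at hj
      exact (aa_pos (by omega) 0).le) (fun j _ => aa_mono y)
  set PA := ∏ j ∈ range (n + 1), aa M j y
  set PB := ∏ j ∈ range d, aa M (n + 1 + j) y
  set P0 := ∏ j ∈ range (n + 1), aa M j 0
  rw [norm_div, norm_mul, norm_mul, Complex.norm_exp, hexp, Complex.norm_real, Complex.norm_real,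
    norm_mul, hsin, Real.norm_of_nonneg hB.le, Real.norm_of_nonneg (mul_pos hA hB).le]
  have n2 : ‖(2 : ℂ)‖ = 2 := by simp
  rw [n2]
  have e : Real.exp s * PB * (2 * Real.sinh y) / (PA * PB) = Real.exp s * (2 * Real.sinh y) / PA := by
    field_simp
  rw [e]
  exact div_le_div_of_nonneg_left (by positivity) hA0 hAm

lemma brf_aa : ∀ ε : ℝ, 0 < ε → ∀ᶠ M : ℕ in atTop, ∀ n d : ℕ, n + d + 1 = M →
    2 * ‖brf (vh M) n‖ ^ 2 / ∏ j ∈ range (n + 1), aa M j 0 ≤ Real.exp (ε * M) := by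
  intro ε hε
  obtain ⟨δ, hδ, hu⟩ := lob_uc (show 0 < ε * π / 24 by positivity)
  have t1 := brf_asymp (ε / 16) (by positivity)
  have t2 := tend_r.eventually (Pool.Agent.H811R3.EvenVolR.taskR (ε / 48) (by positivity))
  have t3 : ∀ᶠ M : ℕ in atTop, π / Rh M < δ :=
    (tendsto_const_nhds.div_atTop tend_Rh).eventually (gt_mem_nhds hδ)
  have t4 : ∀ᶠ M : ℕ in atTop, Real.log 2 ≤ ε / 4 * M :=
    (tendsto_natCast_atTop_atTop.const_mul_atTop (by positivity)).eventually_ge_atTop _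
  filter_upwards [t1, t2, t3, t4, eventually_ge_atTop 1] with M a1 a2 a3 a4 hM n d hnd
  have hp := Real.pi_pos
  have hMR : (1 : ℝ) ≤ M := by exact_mod_cast hM
  have hR := Rh_pos M
  have hR2 : Rh M = M + 1 / 2 := rfl
  have hb : 0 < ‖brf (vh M) n‖ := norm_pos_iff.2 (brf_vh_ne (by omega))
  have hA0 : 0 < ∏ j ∈ range (n + 1), aa M j 0 := Finset.prod_pos fun j hj => by
    rw [Finset.mem_range] at hj
    exact aa_pos (by omega) 0
  have b1 := a1 n (by omega)
  have b2 := a1 (n + 1) (by omega)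
  have b3 := a2 (2 * (n + 1)) (by omega)
  rw [log_brf_vh (by omega)] at b2
  rw [← Real.log_le_iff_le_exp (by positivity), Real.log_div (by positivity) hA0.ne',
    Real.log_mul (by norm_num) (by positivity), Real.log_pow, log_prod_aa M (n + 1) (by omega)]
  have hr : ((2 * M + 1 : ℕ) : ℝ) = 2 * Rh M := (Rh_two M).symm
  rw [hr] at b3
  have e3 : π * ((2 * (n + 1) : ℕ) : ℝ) / (2 * Rh M) = π * ((n + 1 : ℕ) : ℝ) / Rh M := by
    push_cast
    field_simp
  rw [e3] at b3
  have hn : (n : ℝ) + d + 1 = M := by exact_mod_cast hnd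
  have hd0 : (0 : ℝ) ≤ d := by positivity
  have hn0 : (0 : ℝ) ≤ n := by positivity
  have d1 := hu (π * ((n + 1 : ℕ) : ℝ) / Rh M) ⟨by positivity, by
      rw [div_le_iff₀ hR]
      push_cast
      nlinarith⟩ (π * n / Rh M) ⟨by positivity, by
      rw [div_le_iff₀ hR]
      nlinarith⟩ (by
      rw [show π * ((n + 1 : ℕ) : ℝ) / Rh M - π * n / Rh M = π / Rh M by push_cast; ring,
        abs_of_pos (by positivity)]
      exact a3)
  set L1 := GapVol.lob (π * ((n + 1 : ℕ) : ℝ) / Rh M)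
  set L0 := GapVol.lob (π * n / Rh M)
  have hRp : 0 < Rh M / π := by positivity
  have hRM : Rh M ≤ 3 / 2 * M := by rw [hR2]; linarith
  have f1 : |Rh M / π * (L1 - L0)| ≤ ε / 16 * M := by
    rw [abs_mul, abs_of_pos hRp]
    calc Rh M / π * |L1 - L0| ≤ Rh M / π * (ε * π / 24) := mul_le_mul_of_nonneg_left d1 hRp.le
      _ = ε / 24 * Rh M := by field_simp
      _ ≤ ε / 24 * (3 / 2 * M) := mul_le_mul_of_nonneg_left hRM (by positivity)
      _ = ε / 16 * M := by ring
  have m1 : Rh M / π * (L1 - L0) = Rh M / π * L1 - Rh M / π * L0 := by ring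
  rw [m1] at f1
  have m2 : 2 * Rh M / π * L1 = 2 * (Rh M / π * L1) := by ring
  rw [m2] at b3
  have g0 : ε / 48 * (2 * Rh M) ≤ ε / 16 * M := by
    calc ε / 48 * (2 * Rh M) ≤ ε / 48 * (2 * (3 / 2 * M)) :=
        mul_le_mul_of_nonneg_left (by linarith) (by positivity)
      _ = ε / 16 * M := by ring
  rw [abs_le] at b1 b2 b3 f1
  obtain ⟨b1l, b1u⟩ := b1
  obtain ⟨b2l, b2u⟩ := b2
  obtain ⟨b3l, b3u⟩ := b3
  obtain ⟨f1l, f1u⟩ := f1
  push_cast
  linarith

theorem hvert : S_HVERT := by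
  intro A ε hε
  filter_upwards [brf_aa ε hε] with M h1 n d hnd y hy
  have hb := h1 n d hnd
  have hs : 0 ≤ Real.sinh y := Real.sinh_nonneg_iff.mpr hy
  have hR := Rh_pos M
  have hpi : (π : ℂ) ≠ 0 := by exact_mod_cast Real.pi_ne_zero
  set P0 := ∏ j ∈ range (n + 1), aa M j 0
  have key : ∀ (ψ : ℂ) (s : ℝ), ‖Hint A M d ψ‖ ≤ Real.exp s * (2 * Real.sinh y) / P0 →
      ‖brf (vh M) n‖ ^ 2 * ‖Hint A M d ψ‖ ≤ Real.exp s * Real.sinh y * Real.exp (ε * M) := by
    intro ψ s h
    calc ‖brf (vh M) n‖ ^ 2 * ‖Hint A M d ψ‖ ≤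
        ‖brf (vh M) n‖ ^ 2 * (Real.exp s * (2 * Real.sinh y) / P0) :=
          mul_le_mul_of_nonneg_left h (by positivity)
      _ = Real.exp s * Real.sinh y * (2 * ‖brf (vh M) n‖ ^ 2 / P0) := by ring
      _ ≤ _ := mul_le_mul_of_nonneg_left hb (by positivity)
  constructor
  · have c1 := key _ _ (Hint_vert A M n d hnd y hy (π + y * Complex.I) (-(A * Rh M * y / 2))
      (cos_right y) (by
      rw [add_comm, Complex.sin_add_pi, Complex.sin_mul_I, norm_neg, norm_mul, Complex.norm_I,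
        mul_one, ← Complex.ofReal_sinh, Complex.norm_real, Real.norm_of_nonneg hs]) (by
      have e1 : Complex.I * A * Rh M * (π + y * Complex.I) ^ 2 / (4 * π) =
          ((-(A * Rh M * y / 2) : ℝ) : ℂ) +
            ((A * Rh M * (π ^ 2 - y ^ 2) / (4 * π) : ℝ) : ℂ) * Complex.I := by
        push_cast
        field_simp
        ring_nf
        rw [Complex.I_sq, show Complex.I ^ 3 = -Complex.I by
          rw [pow_succ, Complex.I_sq]; ring]
        ring
      rw [e1, Complex.add_re, Complex.re_ofReal_mul, Complex.I_re, mul_zero, Complex.ofReal_re,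
        add_zero]))
    refine c1.trans ?_
    have h2 : Real.exp (-(A * Rh M * y / 2)) ≤ 1 := by
      rw [Real.exp_le_one_iff]
      have : 0 ≤ (A : ℝ) * Rh M * y / 2 := by positivity
      linarith
    calc Real.exp (-(A * Rh M * y / 2)) * Real.sinh y * Real.exp (ε * M) ≤
        1 * Real.sinh y * Real.exp (ε * M) := by
          apply mul_le_mul_of_nonneg_right _ (Real.exp_pos _).le
          exact mul_le_mul_of_nonneg_right h2 hs
      _ = _ := by ring
  · have c1 := key _ _ (Hint_vert A M n d hnd y hy (-π + y * Complex.I) (A * Rh M * y / 2)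
      (cos_left y) (by
      rw [add_comm, ← sub_eq_add_neg, Complex.sin_sub_pi, Complex.sin_mul_I, norm_neg, norm_mul,
        Complex.norm_I, mul_one, ← Complex.ofReal_sinh, Complex.norm_real,
        Real.norm_of_nonneg hs]) (by
      have e1 : Complex.I * A * Rh M * (-π + y * Complex.I) ^ 2 / (4 * π) =
          ((A * Rh M * y / 2 : ℝ) : ℂ) +
            ((A * Rh M * (π ^ 2 - y ^ 2) / (4 * π) : ℝ) : ℂ) * Complex.I := by
        push_cast
        field_simp
        ring_nf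
        rw [Complex.I_sq, show Complex.I ^ 3 = -Complex.I by
          rw [pow_succ, Complex.I_sq]; ring]
        ring
      rw [e1, Complex.add_re, Complex.re_ofReal_mul, Complex.I_re, mul_zero, Complex.ofReal_re,
        add_zero]))
    refine c1.trans (le_of_eq ?_)
    rw [Real.exp_add]
    ring

end Pool.Agent.W125.TV
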